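import Pool.Agent.Q217.CO.Enum

set_option autoImplicit false

/-!
# All r.e. languages can be learned with one piece of open negative information

The learner behaves as follows on a finite segment with positive data `P` and negative data `N`.
The hypothesis enumerates, at stage `t`, the elements below `t` of the intersection of those
`W_{j,t}`, `j < k`, that contain `P`, where `k ≤ t` is the least number such that this
intersection contains no element of `N` (if there is one). For `L = W_e` let `A_k` be the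
intersection of the `W_j`, `j < k`, that contain `L`, and let `k` be least such that `A_k` is a
finite variant of `L`. The teacher provides one element of `A_{k-1} \ L` (nothing if `k = 0`).
-/

namespace Pool.Agent.Results.MP_1b3940_lc.AllREOneNegative

open Filter

/-- Acceptable numberings of the partial computable functions: `φ` is partial computable and
every partial computable `g` of two arguments reduces to `φ` by a computable function. -/
def Acceptable (φ : ℕ → ℕ →. ℕ) : Prop :=
  Partrec₂ φ ∧ ∀ g : ℕ → ℕ →. ℕ, Partrec₂ g →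
    ∃ h : ℕ → ℕ, Computable h ∧ ∀ x, φ (h x) = g x

/-- The `e`-th r.e. set. -/
def W (φ : ℕ → ℕ →. ℕ) (e : ℕ) : Set ℕ := {x | (φ e x).Dom}

/-- Entries of information sequences: `some (x, true)` stands for `(x, 1)`, `some (x, false)` for
`(x, 0)` and `none` for `#`. -/
abbrev Entry : Type := Option (ℕ × Bool)

/-- The positive information. -/
def PosInfo (I : ℕ → Entry) : Set ℕ := {x | ∃ n, I n = some (x, true)}

/-- The negative information. -/
def NegInfo (I : ℕ → Entry) : Set ℕ := {x | ∃ n, I n = some (x, false)}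

/-- Information sequences: no number has both kinds of entries. -/
def IsInfo (I : ℕ → Entry) : Prop := ∀ x, ¬ (x ∈ PosInfo I ∧ x ∈ NegInfo I)

/-- The initial segment of length `n`. -/
def initSeg (I : ℕ → Entry) (n : ℕ) : List Entry := (List.range n).map I

/-- The learner `M` `NegO^i TxtBc^*`-identifies the language `L`. -/
def Identifies (φ : ℕ → ℕ →. ℕ) (i : ℕ) (M : List Entry → ℕ) (L : Set ℕ) : Prop :=
  ∃ S : Set ℕ, S ⊆ Lᶜ ∧ S.encard ≤ i ∧ ∀ I : ℕ → Entry, IsInfo I → PosInfo I = L →
    S ⊆ NegInfo I → NegInfo I ⊆ Lᶜ →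
      ∀ᶠ n in atTop, (symmDiff (W φ (M (initSeg I n))) L).Finite

section Learner

variable (v : ℕ → Option (ℕ × ℕ))

/-- Approximations of the r.e. sets. -/
def Wt (t j x : ℕ) : Prop := ∃ m ∈ List.range t, v m = some (j, x)

/-- The indices consistent with the positive data. -/
def inJ (P : List ℕ) (t j : ℕ) : Prop := ∀ x ∈ P, Wt v t j x

/-- The intersections. -/
def Vt (P : List ℕ) (t k x : ℕ) : Prop := ∀ j ∈ List.range k, ¬ inJ v P t j ∨ Wt v t j x

/-- The intersection is consistent with the negative data. -/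
def gd (P N : List ℕ) (t k : ℕ) : Prop := ∀ y ∈ N, ¬ Vt v P t k y

/-- The element `x` is enumerated at stage `t`. -/
def enumAt (P N : List ℕ) (x t : ℕ) : Prop :=
  x < t ∧ ∃ k ∈ List.range (t + 1), (gd v P N t k ∧ ∀ k' ∈ List.range k, ¬ gd v P N t k') ∧
    Vt v P t k x

/-- The positive data. -/
def posOf (s : List Entry) : List ℕ :=
  s.filterMap fun o => o.bind fun p => bif p.2 then some p.1 else none

/-- The negative data. -/
def negOf (s : List Entry) : List ℕ :=
  s.filterMap fun o => o.bind fun p => bif p.2 then none else some p.1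

theorem mem_posOf {s : List Entry} {x : ℕ} : x ∈ posOf s ↔ some (x, true) ∈ s := by
  unfold posOf
  rw [List.mem_filterMap]
  constructor
  · rintro ⟨o, ho, h⟩
    obtain ⟨⟨y, b⟩, h1, h2⟩ := Option.bind_eq_some_iff.1 h
    cases b
    · exact absurd h2 (by simp)
    · have h3 : y = x := Option.some_injective _ h2
      rw [h1, h3] at ho
      exact ho
  · intro h
    exact ⟨_, h, rfl⟩

theorem mem_negOf {s : List Entry} {x : ℕ} : x ∈ negOf s ↔ some (x, false) ∈ s := by
  unfold negOf
  rw [List.mem_filterMap]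
  constructor
  · rintro ⟨o, ho, h⟩
    obtain ⟨⟨y, b⟩, h1, h2⟩ := Option.bind_eq_some_iff.1 h
    cases b
    · have h3 : y = x := Option.some_injective _ h2
      rw [h1, h3] at ho
      exact ho
    · exact absurd h2 (by simp)
  · intro h
    exact ⟨_, h, rfl⟩

variable {v}

theorem prim_Wt (hv : Primrec v) : PrimrecPred fun a : ℕ × ℕ × ℕ => Wt v a.1 a.2.1 a.2.2 := by
  have h : PrimrecRel fun (m : ℕ) (b : ℕ × ℕ) => v m = some b :=
    Primrec.eq.comp (hv.comp Primrec.fst) (Primrec.option_some.comp Primrec.snd)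
  exact (PrimrecRel.exists_mem_list h).comp (Primrec.list_range.comp Primrec.fst) Primrec.snd

theorem prim_inJ (hv : Primrec v) :
    PrimrecPred fun a : List ℕ × ℕ × ℕ => inJ v a.1 a.2.1 a.2.2 := by
  have h : PrimrecRel fun (x : ℕ) (b : ℕ × ℕ) => Wt v b.1 b.2 x :=
    (prim_Wt hv).comp (Primrec.pair (Primrec.fst.comp Primrec.snd)
      (Primrec.pair (Primrec.snd.comp Primrec.snd) Primrec.fst))
  exact (PrimrecRel.forall_mem_list h).comp Primrec.fst Primrec.snd

theorem prim_Vt (hv : Primrec v) :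
    PrimrecPred fun a : List ℕ × ℕ × ℕ × ℕ => Vt v a.1 a.2.1 a.2.2.1 a.2.2.2 := by
  have h : PrimrecRel fun (j : ℕ) (b : List ℕ × ℕ × ℕ × ℕ) =>
      ¬ inJ v b.1 b.2.1 j ∨ Wt v b.2.1 j b.2.2.2 := by
    refine PrimrecPred.or (PrimrecPred.not ((prim_inJ hv).comp (Primrec.pair
      (Primrec.fst.comp Primrec.snd) (Primrec.pair (Primrec.fst.comp
        (Primrec.snd.comp Primrec.snd)) Primrec.fst)))) ((prim_Wt hv).comp (Primrec.pair
      (Primrec.fst.comp (Primrec.snd.comp Primrec.snd)) (Primrec.pair Primrec.fst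
      (Primrec.snd.comp (Primrec.snd.comp (Primrec.snd.comp Primrec.snd))))))
  exact (PrimrecRel.forall_mem_list h).comp (Primrec.list_range.comp (Primrec.fst.comp
    (Primrec.snd.comp Primrec.snd))) Primrec.id

theorem prim_gd (hv : Primrec v) :
    PrimrecPred fun a : (List ℕ × List ℕ) × ℕ × ℕ => gd v a.1.1 a.1.2 a.2.1 a.2.2 := by
  have h : PrimrecRel fun (y : ℕ) (b : (List ℕ × List ℕ) × ℕ × ℕ) =>
      ¬ Vt v b.1.1 b.2.1 b.2.2 y :=
    PrimrecPred.not ((prim_Vt hv).comp (Primrec.pair (Primrec.fst.comp (Primrec.fst.comp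
      Primrec.snd)) (Primrec.pair (Primrec.fst.comp (Primrec.snd.comp Primrec.snd))
      (Primrec.pair (Primrec.snd.comp (Primrec.snd.comp Primrec.snd)) Primrec.fst))))
  exact (PrimrecRel.forall_mem_list h).comp (Primrec.snd.comp Primrec.fst) Primrec.id

theorem prim_enumAt (hv : Primrec v) :
    PrimrecPred fun a : (List ℕ × List ℕ) × ℕ × ℕ => enumAt v a.1.1 a.1.2 a.2.1 a.2.2 := by
  have h1 : PrimrecRel fun (k' : ℕ) (b : (List ℕ × List ℕ) × ℕ) =>
      ¬ gd v b.1.1 b.1.2 b.2 k' :=
    PrimrecPred.not ((prim_gd hv).comp (Primrec.pair (Primrec.fst.comp Primrec.snd)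
      (Primrec.pair (Primrec.snd.comp Primrec.snd) Primrec.fst)))
  have h2 := PrimrecRel.forall_mem_list h1
  have h3 : PrimrecRel fun (k : ℕ) (b : (List ℕ × List ℕ) × ℕ × ℕ) =>
      (gd v b.1.1 b.1.2 b.2.2 k ∧ ∀ k' ∈ List.range k, ¬ gd v b.1.1 b.1.2 b.2.2 k') ∧
        Vt v b.1.1 b.2.2 k b.2.1 := by
    refine PrimrecPred.and (PrimrecPred.and ?_ ?_) ?_
    · exact (prim_gd hv).comp (Primrec.pair (Primrec.fst.comp Primrec.snd)
        (Primrec.pair (Primrec.snd.comp (Primrec.snd.comp Primrec.snd)) Primrec.fst))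
    · exact h2.comp (Primrec.list_range.comp Primrec.fst) (Primrec.pair
        (Primrec.fst.comp Primrec.snd) (Primrec.snd.comp (Primrec.snd.comp Primrec.snd)))
    · exact (prim_Vt hv).comp (Primrec.pair (Primrec.fst.comp (Primrec.fst.comp Primrec.snd))
        (Primrec.pair (Primrec.snd.comp (Primrec.snd.comp Primrec.snd)) (Primrec.pair
        Primrec.fst (Primrec.fst.comp (Primrec.snd.comp Primrec.snd)))))
  refine PrimrecPred.and (Primrec.nat_lt.comp (Primrec.fst.comp Primrec.snd)
    (Primrec.snd.comp Primrec.snd)) ?_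
  exact (PrimrecRel.exists_mem_list h3).comp (Primrec.list_range.comp (Primrec.succ.comp
    (Primrec.snd.comp Primrec.snd))) Primrec.id

theorem prim_posOf : Primrec posOf := by
  refine Primrec.listFilterMap Primrec.id ?_
  refine Primrec₂.mk (Primrec.option_bind Primrec.snd (Primrec₂.mk ?_))
  exact Primrec.cond (Primrec.snd.comp Primrec.snd) (Primrec.option_some.comp
    (Primrec.fst.comp Primrec.snd)) (Primrec.const none)

theorem prim_negOf : Primrec negOf := by
  refine Primrec.listFilterMap Primrec.id ?_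
  refine Primrec₂.mk (Primrec.option_bind Primrec.snd (Primrec₂.mk ?_))
  exact Primrec.cond (Primrec.snd.comp Primrec.snd) (Primrec.const none)
    (Primrec.option_some.comp (Primrec.fst.comp Primrec.snd))

end Learner

/-- **Theorem.** For every acceptable numbering and every `i ≥ 1`, the class of all r.e.
languages is in `NegO^i TxtBc^*`: one computable learner identifies all of them. -/
theorem result (φ : ℕ → ℕ →. ℕ) (hφ : Acceptable φ) (i : ℕ) (hi : 1 ≤ i) :
    ∃ M : List Entry → ℕ, Computable M ∧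
      ∀ L : Set ℕ, (∃ e, W φ e = L) → Identifies φ i M L := by
  classical
  -- enumeration of the graph
  have hre : REPred fun a : ℕ × ℕ => (φ a.1 a.2).Dom := by
    have h1 : Partrec fun a : ℕ × ℕ => (φ a.1 a.2).map fun _ => () :=
      Partrec.map hφ.1 (Computable.const ()).to₂
    refine h1.of_eq fun a => ?_
    refine Part.ext' ?_ fun _ _ => rfl
    simp [Part.assert]
  obtain ⟨v, hv, hv2⟩ := Q217.CO.enum_re hre
  have hWt : ∀ e x, x ∈ W φ e ↔ ∃ t, Wt v t e x := by
    intro e x
    have h1 := hv2 (e, x)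
    constructor
    · intro h
      obtain ⟨m, hm⟩ := h1.1 h
      exact ⟨m + 1, m, List.mem_range.2 (Nat.lt_succ_self m), hm⟩
    · rintro ⟨t, m, -, hm⟩
      exact h1.2 ⟨m, hm⟩
  have hWmono : ∀ s t e x, s ≤ t → Wt v s e x → Wt v t e x := by
    rintro s t e x hst ⟨m, hm, h⟩
    exact ⟨m, List.mem_range.2 ((List.mem_range.1 hm).trans_le hst), h⟩
  -- the partial function enumerating the hypotheses
  have hprim : PrimrecPred fun a : (ℕ × ℕ) × ℕ =>
      enumAt v (posOf ((Encodable.decode (α := List Entry) a.1.1).getD []))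
        (negOf ((Encodable.decode (α := List Entry) a.1.1).getD [])) a.1.2 a.2 := by
    have hs : Primrec fun a : (ℕ × ℕ) × ℕ => (Encodable.decode (α := List Entry) a.1.1).getD [] :=
      Primrec.option_getD.comp (Primrec.decode.comp (Primrec.fst.comp Primrec.fst))
        (Primrec.const [])
    exact (prim_enumAt hv).comp (Primrec.pair (Primrec.pair (prim_posOf.comp hs)
      (prim_negOf.comp hs)) (Primrec.pair (Primrec.snd.comp Primrec.fst) Primrec.snd))
  let q : ℕ → ℕ → ℕ → Prop := fun c x t =>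
    enumAt v (posOf ((Encodable.decode (α := List Entry) c).getD []))
      (negOf ((Encodable.decode (α := List Entry) c).getD [])) x t
  let g : ℕ → ℕ →. ℕ := fun c x => Nat.rfind fun t => Part.some (decide (q c x t))
  have hg : Partrec₂ g := by
    have h1 : Primrec fun a : (ℕ × ℕ) × ℕ => decide (q a.1.1 a.1.2 a.2) := hprim.decide
    exact Partrec.rfind (h1.to_comp.partrec)
  have hgdom : ∀ c x, (g c x).Dom ↔ ∃ t, q c x t := by
    intro c x
    show (Nat.rfind fun t => Part.some (decide (q c x t))).Dom ↔ _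
    rw [Nat.rfind_dom]
    constructor
    · rintro ⟨t, ht, -⟩
      exact ⟨t, by simpa using ht⟩
    · rintro ⟨t, ht⟩
      exact ⟨t, by simpa using ht, fun _ => trivial⟩
  obtain ⟨h, hh, hh2⟩ := hφ.2 g hg
  refine ⟨fun s => h (Encodable.encode s), hh.comp Computable.encode, ?_⟩
  have hW : ∀ (s : List Entry) (x : ℕ), x ∈ W φ (h (Encodable.encode s)) ↔
      ∃ t, enumAt v (posOf s) (negOf s) x t := by
    intro s x
    show (φ (h (Encodable.encode s)) x).Dom ↔ _
    rw [hh2, hgdom]
    show (∃ t, enumAt v (posOf ((Encodable.decode (α := List Entry) (Encodable.encode s)).getD []))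
      (negOf ((Encodable.decode (α := List Entry) (Encodable.encode s)).getD [])) x t) ↔ _
    rw [Encodable.encodek]
    rfl
  rintro L ⟨e, he⟩
  -- the sets `A k`
  let A : ℕ → Set ℕ := fun k => {x | ∀ j < k, L ⊆ W φ j → x ∈ W φ j}
  have hAanti : ∀ k l, k ≤ l → A l ⊆ A k := fun k l hkl x hx j hj hL =>
    hx j (hj.trans_le hkl) hL
  have hLA : ∀ k, L ⊆ A k := fun k x hx j _ hL => hL hx
  have hAe : A (e + 1) ⊆ L := fun x hx => by
    have := hx e (Nat.lt_succ_self e) (by rw [he])
    rwa [he] at this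
  have hex : ∃ k, (A k \ L).Finite := ⟨e + 1, by
    rw [Set.diff_eq_empty.2 hAe]
    exact Set.finite_empty⟩
  obtain ⟨k0, hk0, hk0min⟩ : ∃ k, (A k \ L).Finite ∧ ∀ k' < k, ¬ (A k' \ L).Finite :=
    ⟨Nat.find hex, Nat.find_spec hex, fun k' hk' => Nat.find_min hex hk'⟩
  have hk0e : k0 ≤ e + 1 := by
    by_contra hcon
    rw [not_le] at hcon
    exact hk0min _ hcon (by
      rw [Set.diff_eq_empty.2 hAe]
      exact Set.finite_empty)
  -- the teacher
  obtain ⟨S, hS1, hS2, hS3⟩ : ∃ S : Set ℕ, S ⊆ Lᶜ ∧ S.encard ≤ 1 ∧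
      ∀ k < k0, ∃ s ∈ S, s ∈ A k := by
    rcases Nat.eq_zero_or_pos k0 with h0 | h0
    · exact ⟨∅, Set.empty_subset _, by simp, fun k hk => by omega⟩
    · have h1 := hk0min (k0 - 1) (by omega)
      obtain ⟨s, hs⟩ := (Set.not_finite.1 h1 : (A (k0 - 1) \ L).Infinite).nonempty
      refine ⟨{s}, by simpa using hs.2, by simp, fun k hk => ⟨s, rfl, ?_⟩⟩
      exact hAanti k (k0 - 1) (by omega) hs.1
  refine ⟨S, hS1, hS2.trans (by exact_mod_cast hi), ?_⟩
  intro I _ hP hSN hNL
  have hmemP : ∀ n x, x ∈ posOf (initSeg I n) ↔ ∃ m < n, I m = some (x, true) := by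
    intro n x
    rw [mem_posOf]
    unfold initSeg
    rw [List.mem_map]
    simp only [List.mem_range]
  have hmemN : ∀ n x, x ∈ negOf (initSeg I n) ↔ ∃ m < n, I m = some (x, false) := by
    intro n x
    rw [mem_negOf]
    unfold initSeg
    rw [List.mem_map]
    simp only [List.mem_range]
  have hPL : ∀ n x, x ∈ posOf (initSeg I n) → x ∈ L := by
    intro n x hx
    obtain ⟨m, -, hm⟩ := (hmemP n x).1 hx
    rw [← hP]
    exact ⟨m, hm⟩
  have hNL' : ∀ n x, x ∈ negOf (initSeg I n) → x ∉ L := by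
    intro n x hx
    obtain ⟨m, -, hm⟩ := (hmemN n x).1 hx
    exact hNL ⟨m, hm⟩
  -- eventually the segments contain enough information
  have ev1 : ∀ j, ¬ L ⊆ W φ j → ∀ᶠ n in atTop, ∃ x ∈ posOf (initSeg I n), x ∉ W φ j := by
    intro j hj
    obtain ⟨x, hx, hxj⟩ := Set.not_subset.1 hj
    rw [← hP] at hx
    obtain ⟨m, hm⟩ := hx
    filter_upwards [eventually_gt_atTop m] with n hn
    exact ⟨x, (hmemP n x).2 ⟨m, hn, hm⟩, hxj⟩
  have ev2 : ∀ᶠ n in atTop, ∀ j ∈ Finset.range (e + 1), ¬ L ⊆ W φ j →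
      ∃ x ∈ posOf (initSeg I n), x ∉ W φ j := by
    rw [eventually_all_finset]
    intro j _
    by_cases hj : L ⊆ W φ j
    · exact Eventually.of_forall fun n h => absurd hj h
    · filter_upwards [ev1 j hj] with n hn _
      exact hn
  have ev3 : ∀ᶠ n in atTop, ∀ k ∈ Finset.range k0, ∃ s ∈ negOf (initSeg I n), s ∈ A k := by
    rw [eventually_all_finset]
    intro k hk
    obtain ⟨s, hs, hsk⟩ := hS3 k (Finset.mem_range.1 hk)
    obtain ⟨m, hm⟩ := hSN hs
    filter_upwards [eventually_gt_atTop m] with n hn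
    exact ⟨s, (hmemN n s).2 ⟨m, hn, hm⟩, hsk⟩
  filter_upwards [ev2, ev3] with n h2 h3
  set P := posOf (initSeg I n) with hPdef
  set N := negOf (initSeg I n) with hNdef
  -- the consistent indices stabilize
  have inJ_iff : ∀ᶠ t in atTop, ∀ j ∈ Finset.range (e + 1), (inJ v P t j ↔ L ⊆ W φ j) := by
    rw [eventually_all_finset]
    intro j hj
    by_cases hjL : L ⊆ W φ j
    · have : ∀ᶠ t in atTop, ∀ x ∈ P.toFinset, Wt v t j x := by
        rw [eventually_all_finset]
        intro x hx
        obtain ⟨t, ht⟩ := (hWt j x).1 (hjL (hPL n x (List.mem_toFinset.1 hx)))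
        filter_upwards [eventually_ge_atTop t] with s hs
        exact hWmono t s j x hs ht
      filter_upwards [this] with t ht
      exact ⟨fun _ => hjL, fun _ x hx => ht x (List.mem_toFinset.2 hx)⟩
    · refine Eventually.of_forall fun t => ⟨fun h => ?_, fun h => absurd h hjL⟩
      obtain ⟨x, hx, hxj⟩ := h2 j hj hjL
      exact absurd ((hWt j x).2 ⟨t, h x hx⟩) hxj
  have Vsub : ∀ᶠ t in atTop, ∀ k, k ≤ e + 1 → ∀ x, Vt v P t k x → x ∈ A k := by
    filter_upwards [inJ_iff] with t ht k hk x hx j hj hjL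
    rcases hx j (List.mem_range.2 hj) with h | h
    · exact absurd ((ht j (Finset.mem_range.2 (by omega))).2 hjL) h
    · exact (hWt j x).2 ⟨t, h⟩
  have Vsup : ∀ x, ∀ k, k ≤ e + 1 → x ∈ A k → ∀ᶠ t in atTop, Vt v P t k x := by
    intro x k hk hx
    have : ∀ᶠ t in atTop, ∀ j ∈ Finset.range k, (¬ inJ v P t j ∨ Wt v t j x) := by
      rw [eventually_all_finset]
      intro j hj
      have hj' := Finset.mem_range.1 hj
      by_cases hjL : L ⊆ W φ j
      · obtain ⟨t, ht⟩ := (hWt j x).1 (hx j hj' hjL)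
        filter_upwards [eventually_ge_atTop t] with s hs
        exact Or.inr (hWmono t s j x hs ht)
      · filter_upwards [inJ_iff] with t ht
        exact Or.inl fun h => hjL ((ht j (Finset.mem_range.2 (by omega))).1 h)
    filter_upwards [this] with t ht j hj
    exact ht j (Finset.mem_range.2 (List.mem_range.1 hj))
  have bad : ∀ᶠ t in atTop, ∀ k ∈ Finset.range k0, ¬ gd v P N t k := by
    rw [eventually_all_finset]
    intro k hk
    obtain ⟨s, hs, hsk⟩ := h3 k hk
    have := Finset.mem_range.1 hk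
    filter_upwards [Vsup s k (by omega) hsk] with t ht hgd
    exact hgd s hs ht
  have good : ∀ᶠ t in atTop, gd v P N t (e + 1) := by
    filter_upwards [Vsub] with t ht y hy hV
    exact hNL' n y hy (hAe (ht (e + 1) le_rfl y hV))
  obtain ⟨t0, ht0⟩ := ((Vsub.and bad).and good).exists_forall_of_atTop
  have hsup : L ⊆ W φ (h (Encodable.encode (initSeg I n))) := by
    intro x hx
    rw [hW]
    have hall : ∀ᶠ t in atTop, ∀ k ∈ Finset.range (e + 2), Vt v P t k x := by
      rw [eventually_all_finset]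
      intro k hk
      have := Finset.mem_range.1 hk
      exact Vsup x k (by omega) (hLA k hx)
    obtain ⟨t, ht1, ht2, ht3⟩ := (hall.and ((eventually_ge_atTop (max t0 (e + 1))).and
      (eventually_gt_atTop x))).exists
    have hgt := (ht0 t (le_trans (le_max_left _ _) ht2)).2
    have hexk : ∃ k, gd v P N t k := ⟨e + 1, hgt⟩
    have hle : Nat.find hexk ≤ e + 1 := Nat.find_min' hexk hgt
    refine ⟨t, ht3, Nat.find hexk, List.mem_range.2 ?_, ⟨Nat.find_spec hexk, ?_⟩, ?_⟩
    · have := le_trans (le_max_right _ _) ht2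
      omega
    · intro k' hk'
      exact Nat.find_min hexk (List.mem_range.1 hk')
    · exact ht1 _ (Finset.mem_range.2 (by omega))
  have hsub : W φ (h (Encodable.encode (initSeg I n))) \ L ⊆ Set.Iio t0 ∪ (A k0 \ L) := by
    rintro x ⟨hx, hxL⟩
    obtain ⟨t, hxt, k, hk, ⟨hg1, hg2⟩, hV⟩ := (hW _ x).1 hx
    rcases lt_or_ge t t0 with h | h
    · exact Or.inl (hxt.trans h)
    · right
      obtain ⟨⟨a1, a2⟩, a3⟩ := ht0 t h
      have hke : k ≤ e + 1 := by
        by_contra hcon
        exact hg2 (e + 1) (List.mem_range.2 (by omega)) a3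
      have hk0k : k0 ≤ k := by
        by_contra hcon
        exact a2 k (Finset.mem_range.2 (by omega)) hg1
      exact ⟨hAanti k0 k hk0k (a1 k hke x hV), hxL⟩
  refine Set.Finite.subset ((Set.finite_Iio t0).union hk0) ?_
  intro x hx
  rcases hx with hx | hx
  · exact hsub hx
  · exact absurd (hsup hx.1) hx.2

end Pool.Agent.Results.MP_1b3940_lc.AllREOneNegative
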